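import Pool.Agent.Q295.PN.StmA

/-!
# Project PN, job PN-NO: closing points which are on no longest chain
-/

set_option autoImplicit false

namespace Pool.Agent.Q154.PN

open Finset Pool.Agent.Q295.PN

lemma chain_split {ι : Type} [Fintype ι] [DecidableEq ι] [PartialOrder ι]
    (hmc : ∀ A C : Finset ι, C ⊆ A → IsChain (· ≤ ·) (C : Set ι) → C.card ≤ mc A)
    (κ : ι → Bool) (C : Finset ι) (z : ι) (hz : z ∈ C) (hC : IsChain (· ≤ ·) (C : Set ι))
    (hsub : C.erase z ⊆ op κ) : (C.erase z).card ≤ Fw z κ + Bw z κ := by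
  classical
  have h1 : C.erase z ⊆ (C.erase z).filter (fun y => z < y) ∪
      (C.erase z).filter (fun y => y < z) := by
    intro y hy
    rw [Finset.mem_union, Finset.mem_filter, Finset.mem_filter]
    have hyC := Finset.mem_of_mem_erase hy
    have hne := Finset.ne_of_mem_erase hy
    rcases hC (Finset.mem_coe.mpr hyC) (Finset.mem_coe.mpr hz) hne with h | h
    · exact Or.inr ⟨hy, lt_of_le_of_ne h hne⟩
    · exact Or.inl ⟨hy, lt_of_le_of_ne h (Ne.symm hne)⟩
  have hch : ∀ D : Finset ι, D ⊆ C.erase z → IsChain (· ≤ ·) (D : Set ι) := by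
    intro D hD
    intro a ha b hb hab
    exact hC (Finset.mem_coe.mpr (Finset.mem_of_mem_erase (hD (Finset.mem_coe.mp ha))))
      (Finset.mem_coe.mpr (Finset.mem_of_mem_erase (hD (Finset.mem_coe.mp hb)))) hab
  have h2 : ((C.erase z).filter (fun y => z < y)).card ≤ Fw z κ := by
    unfold Fw
    apply hmc
    · intro y hy
      rw [Finset.mem_filter] at hy ⊢
      exact ⟨hsub hy.1, hy.2⟩
    · exact hch _ (Finset.filter_subset _ _)
  have h3 : ((C.erase z).filter (fun y => y < z)).card ≤ Bw z κ := by
    unfold Bw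
    apply hmc
    · intro y hy
      rw [Finset.mem_filter] at hy ⊢
      exact ⟨hsub hy.1, hy.2⟩
    · exact hch _ (Finset.filter_subset _ _)
  calc (C.erase z).card ≤ _ := Finset.card_le_card h1
    _ ≤ _ := Finset.card_union_le _ _
    _ ≤ _ := add_le_add h2 h3

theorem no : S_NO := by
  intro hMC ι _ _ _ κ Z hZ
  obtain ⟨hmono, -, hex, hle, -, -⟩ := hMC ι
  have hsub0 : op (fun i => if i ∈ Z then false else κ i) ⊆ op κ := by
    intro i hi
    unfold op at hi ⊢
    rw [Finset.mem_filter] at hi ⊢
    refine ⟨Finset.mem_univ _, ?_⟩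
    have h := hi.2
    by_cases hiZ : i ∈ Z
    · simp [hiZ] at h
    · simpa [hiZ] using h
  have hbd : ∀ w, mc ((op (fun i => if i ∈ Z then false else κ i)).erase w) ≤ Lc κ := by
    intro w
    apply hmono
    exact (Finset.erase_subset _ _).trans hsub0
  have havoid : ∀ C : Finset ι, C ⊆ op κ → IsChain (· ≤ ·) (C : Set ι) → C.card = Lc κ →
      C ⊆ op (fun i => if i ∈ Z then false else κ i) := by
    intro C hC1 hC2 hC3 i hi
    have h1 := hC1 hi
    unfold op at h1 ⊢
    rw [Finset.mem_filter] at h1 ⊢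
    refine ⟨Finset.mem_univ _, ?_⟩
    have hiZ : i ∉ Z := fun h => hZ i h ⟨C, hC1, hC2, hC3, hi⟩
    simpa [hiZ] using h1.2
  constructor
  · intro w hw hL
    obtain ⟨C, hC1, hC2, hC3⟩ := hex (op (Function.update κ w true))
    have hC3' : C.card = Lc κ + 1 := by rw [hC3]; exact hL
    have hsub : C.erase w ⊆ op κ := by
      intro i hi
      have hne := Finset.ne_of_mem_erase hi
      have h := hC1 (Finset.mem_of_mem_erase hi)
      unfold op at h ⊢
      rw [Finset.mem_filter] at h ⊢
      refine ⟨Finset.mem_univ _, ?_⟩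
      simpa [Function.update_of_ne hne] using h.2
    have hwC : w ∈ C := by
      by_contra hn
      rw [Finset.erase_eq_of_notMem hn] at hsub
      have := hle (op κ) C hsub hC2
      unfold Lc at hC3'
      omega
    have hch : IsChain (· ≤ ·) ((C.erase w : Finset ι) : Set ι) := by
      intro a ha b hb hab
      exact hC2 (Finset.mem_coe.mpr (Finset.mem_of_mem_erase (Finset.mem_coe.mp ha)))
        (Finset.mem_coe.mpr (Finset.mem_of_mem_erase (Finset.mem_coe.mp hb))) hab
    have hcard : (C.erase w).card = Lc κ := by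
      rw [Finset.card_erase_of_mem hwC, hC3']; rfl
    have h0 := havoid _ hsub hch hcard
    have h1 := chain_split hle _ C w hwC hC2 h0
    have h2 := hbd w
    unfold De
    omega
  · rintro z ⟨C, hC1, hC2, hC3, hzC⟩
    have h0 := havoid C hC1 hC2 hC3
    have h1 := chain_split hle _ C z hzC hC2 ((Finset.erase_subset _ _).trans h0)
    have hcard : (C.erase z).card = Lc κ - 1 := by
      rw [Finset.card_erase_of_mem hzC, hC3]
    have h2 := hbd z
    unfold De
    omega

end Pool.Agent.Q154.PN
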